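import Pool.Agent.Helper72.AP.FDefs

/-!
# AP-9: real analytic potentials

A ball of real analytic one-periodic functions consists of functions in `Pot s R'` and has entropy exponent `2`.
-/

set_option autoImplicit false
open MeasureTheory Real Set Filter Topology
open scoped ENNReal

namespace Pool.Agent.Helper68.AP

open Pool.Agent.Helper95.PF Pool.Agent.Helper72.AP

/-- Fourier series with the coefficients `p`, `q`. -/
noncomputable def fs (p q : ℕ → ℝ) (x : ℝ) : ℝ :=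
  ∑' j : ℕ, (p j * Real.cos (2 * π * j * x) + q j * Real.sin (2 * π * j * x))

/-- Coefficients of the cosines of the derivative. -/
noncomputable def dp (q : ℕ → ℝ) (j : ℕ) : ℝ := 2 * π * j * q j

/-- Coefficients of the sines of the derivative. -/
noncomputable def dq (p : ℕ → ℝ) (j : ℕ) : ℝ := -(2 * π * j * p j)

private theorem term_bound {p q u : ℕ → ℝ} (hp : ∀ j, |p j| ≤ u j) (hq : ∀ j, |q j| ≤ u j) (j : ℕ) (x : ℝ) :
    ‖p j * Real.cos (2 * π * j * x) + q j * Real.sin (2 * π * j * x)‖ ≤ 2 * u j := by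
  rw [Real.norm_eq_abs]
  refine (abs_add_le _ _).trans ?_
  rw [abs_mul, abs_mul]
  have h1 := Real.abs_cos_le_one (2 * π * j * x)
  have h2 := Real.abs_sin_le_one (2 * π * j * x)
  have h3 : |p j| * |Real.cos (2 * π * j * x)| ≤ u j * 1 :=
    mul_le_mul (hp j) h1 (abs_nonneg _) ((abs_nonneg _).trans (hp j))
  have h4 : |q j| * |Real.sin (2 * π * j * x)| ≤ u j * 1 :=
    mul_le_mul (hq j) h2 (abs_nonneg _) ((abs_nonneg _).trans (hq j))
  linarith

theorem fs_summable {p q u : ℕ → ℝ} (hp : ∀ j, |p j| ≤ u j) (hq : ∀ j, |q j| ≤ u j) (hu : Summable u) (x : ℝ) :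
    Summable fun j : ℕ => p j * Real.cos (2 * π * j * x) + q j * Real.sin (2 * π * j * x) :=
  Summable.of_norm_bounded (hu.mul_left 2) fun j => term_bound hp hq j x

theorem fs_bound {p q u : ℕ → ℝ} (hp : ∀ j, |p j| ≤ u j) (hq : ∀ j, |q j| ≤ u j) (hu : Summable u) (x : ℝ) :
    |fs p q x| ≤ 2 * ∑' j, u j := by
  have h1 := tsum_of_norm_bounded (hu.mul_left 2).hasSum fun j => term_bound hp hq j x
  rw [tsum_mul_left] at h1
  exact h1

theorem dp_le {q u : ℕ → ℝ} (hq : ∀ j, |q j| ≤ u j) (j : ℕ) : |dp q j| ≤ 2 * π * j * u j := by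
  unfold dp
  have h0 : 0 ≤ 2 * π * (j : ℝ) := by positivity
  rw [abs_mul, abs_of_nonneg h0]
  exact mul_le_mul_of_nonneg_left (hq j) h0

theorem dq_le {p u : ℕ → ℝ} (hp : ∀ j, |p j| ≤ u j) (j : ℕ) : |dq p j| ≤ 2 * π * j * u j := by
  unfold dq
  have h0 : 0 ≤ 2 * π * (j : ℝ) := by positivity
  rw [abs_neg, abs_mul, abs_of_nonneg h0]
  exact mul_le_mul_of_nonneg_left (hp j) h0

theorem fs_hasDeriv {p q u : ℕ → ℝ} (hp : ∀ j, |p j| ≤ u j) (hq : ∀ j, |q j| ≤ u j) (hu : Summable u)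
    (hu1 : Summable fun j : ℕ => 2 * π * j * u j) (x : ℝ) : HasDerivAt (fs p q) (fs (dp q) (dq p) x) x := by
  refine hasDerivAt_tsum (u := fun j : ℕ => 2 * (2 * π * j * u j))
    (g := fun (j : ℕ) (x : ℝ) => p j * Real.cos (2 * π * j * x) + q j * Real.sin (2 * π * j * x))
    (g' := fun (j : ℕ) (x : ℝ) => dp q j * Real.cos (2 * π * j * x) + dq p j * Real.sin (2 * π * j * x)) (y₀ := x)
    (hu1.mul_left 2) (fun j y => ?_) (fun j y => ?_) (fs_summable hp hq hu x) x
  · have h1 : HasDerivAt (fun y : ℝ => 2 * π * j * y) (2 * π * j) y := by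
      simpa using (hasDerivAt_id y).const_mul (2 * π * (j : ℝ))
    have h2 := (h1.cos.const_mul (p j)).add (h1.sin.const_mul (q j))
    refine h2.congr_deriv ?_
    unfold dp dq
    ring
  · exact term_bound (u := fun j : ℕ => 2 * π * j * u j) (dp_le hq) (dq_le hp) j y

theorem fs_sub {p q p' q' u : ℕ → ℝ} (hp : ∀ j, |p j| ≤ u j) (hq : ∀ j, |q j| ≤ u j) (hp' : ∀ j, |p' j| ≤ u j)
    (hq' : ∀ j, |q' j| ≤ u j) (hu : Summable u) (x : ℝ) :
    fs p q x - fs p' q' x = fs (fun j => p j - p' j) (fun j => q j - q' j) x := by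
  unfold fs
  rw [← (fs_summable hp hq hu x).tsum_sub (fs_summable hp' hq' hu x)]
  refine tsum_congr fun j => ?_
  ring

theorem fs_per (p q : ℕ → ℝ) (x : ℝ) : fs p q (x + 1) = fs p q x := by
  unfold fs
  refine tsum_congr fun j => ?_
  have e : 2 * π * (j : ℝ) * (x + 1) = 2 * π * j * x + j * (2 * π) := by ring
  rw [e, Real.cos_add_nat_mul_two_pi, Real.sin_add_nat_mul_two_pi]

/-- The weights. -/
noncomputable def ww (K b : ℝ) (k : ℕ) (j : ℕ) : ℝ := (2 * π * j) ^ k * (K * Real.exp (-(j / b)))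

theorem ww_summable (K : ℝ) {b : ℝ} (hb : 0 < b) (k : ℕ) : Summable (ww K b k) := by
  have h1 := (Real.summable_pow_mul_exp_neg_nat_mul k (show 0 < b⁻¹ by positivity)).mul_left ((2 * π) ^ k * K)
  refine h1.congr fun j => ?_
  unfold ww
  rw [mul_pow]
  have e : -b⁻¹ * (j : ℝ) = -(j / b) := by
    rw [div_eq_inv_mul]
    ring
  rw [e]
  ring

theorem ww_succ (K b : ℝ) (k : ℕ) (j : ℕ) : 2 * π * j * ww K b k j = ww K b (k + 1) j := by
  unfold ww
  ring

theorem dp_ww {K b : ℝ} {k : ℕ} {q : ℕ → ℝ} (hq : ∀ j, |q j| ≤ ww K b k j) (j : ℕ) : |dp q j| ≤ ww K b (k + 1) j := by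
  rw [← ww_succ]
  exact dp_le hq j

theorem dq_ww {K b : ℝ} {k : ℕ} {p : ℕ → ℝ} (hp : ∀ j, |p j| ≤ ww K b k j) (j : ℕ) : |dq p j| ≤ ww K b (k + 1) j := by
  rw [← ww_succ]
  exact dq_le hp j

theorem fs_hasDeriv_ww {K b : ℝ} (hb : 0 < b) {k : ℕ} {p q : ℕ → ℝ} (hp : ∀ j, |p j| ≤ ww K b k j) (hq : ∀ j, |q j| ≤ ww K b k j)
    (x : ℝ) : HasDerivAt (fs p q) (fs (dp q) (dq p) x) x := by
  refine fs_hasDeriv hp hq (ww_summable K hb k) ?_ x
  simp only [ww_succ]
  exact ww_summable K hb (k + 1)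

theorem fs_deriv_ww {K b : ℝ} (hb : 0 < b) {k : ℕ} {p q : ℕ → ℝ} (hp : ∀ j, |p j| ≤ ww K b k j) (hq : ∀ j, |q j| ≤ ww K b k j) :
    deriv (fs p q) = fs (dp q) (dq p) :=
  funext fun x => (fs_hasDeriv_ww hb hp hq x).deriv

theorem fs_pot {s : ℝ} (hs : 0 < s) (hs1 : s < 1) {R : ℝ} (hR : 1 ≤ R) {R' : ℝ} (h1 : 2 * ∑' j, ww R R 1 j ≤ R')
    (h2 : 2 * (2 * ∑' j, ww R R 2 j) ≤ R') (h3 : 2 * ∑' j, ww R R 3 j ≤ R') {p q : ℕ → ℝ}
    (hp : ∀ j, |p j| ≤ ww R R 0 j) (hq : ∀ j, |q j| ≤ ww R R 0 j) : Pot s R' (fs p q) := by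
  have hR0 : 0 < R := by linarith
  have hp1 := dp_ww hq
  have hq1 := dq_ww hp
  have hp2 := dp_ww hq1
  have hq2 := dq_ww hp1
  have hp3 := dp_ww hq2
  have hq3 := dq_ww hp2
  have d1 := fs_deriv_ww hR0 hp hq
  have d2 := fs_deriv_ww hR0 hp1 hq1
  have d3 := fs_deriv_ww hR0 hp2 hq2
  have b1 : ∀ x, |fs (dp q) (dq p) x| ≤ 2 * ∑' j, ww R R 1 j := fs_bound hp1 hq1 (ww_summable R hR0 1)
  have b2 : ∀ x, |fs (dp (dq p)) (dq (dp q)) x| ≤ 2 * ∑' j, ww R R 2 j := fs_bound hp2 hq2 (ww_summable R hR0 2)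
  have b3 : ∀ x, |fs (dp (dq (dp q))) (dq (dp (dq p))) x| ≤ 2 * ∑' j, ww R R 3 j := fs_bound hp3 hq3 (ww_summable R hR0 3)
  have b20 : 0 ≤ 2 * ∑' j, ww R R 2 j := (abs_nonneg _).trans (b2 0)
  have hd0 : Differentiable ℝ (fs p q) := fun x => (fs_hasDeriv_ww hR0 hp hq x).differentiableAt
  have hd1 : Differentiable ℝ (fs (dp q) (dq p)) := fun x => (fs_hasDeriv_ww hR0 hp1 hq1 x).differentiableAt
  have hd2 : Differentiable ℝ (fs (dp (dq p)) (dq (dp q))) := fun x => (fs_hasDeriv_ww hR0 hp2 hq2 x).differentiableAt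
  refine ⟨?_, fs_per p q, ?_, ?_, ?_⟩
  · have e : (2 : WithTop ℕ∞) = 1 + 1 := by norm_num
    rw [e, contDiff_succ_iff_deriv]
    refine ⟨hd0, by simp, ?_⟩
    rw [d1, contDiff_one_iff_deriv, d2]
    exact ⟨hd1, hd2.continuous⟩
  · intro x
    rw [d1]
    exact (b1 x).trans h1
  · intro x
    rw [d1, d2]
    exact (b2 x).trans (by linarith)
  · intro x y
    rw [d1, d2]
    have hR'0 : 0 ≤ R' := by linarith
    rcases le_or_gt |x - y| 1 with hc | hc
    · have h4 : |fs (dp (dq p)) (dq (dp q)) x - fs (dp (dq p)) (dq (dp q)) y| ≤ (2 * ∑' j, ww R R 3 j) * |x - y| := by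
        have h5 := convex_univ.norm_image_sub_le_of_norm_hasDerivWithin_le (f := fs (dp (dq p)) (dq (dp q)))
          (f' := fs (dp (dq (dp q))) (dq (dp (dq p)))) (C := 2 * ∑' j, ww R R 3 j) (s := univ) (x := y) (y := x)
          (fun z _ => (fs_hasDeriv_ww hR0 hp2 hq2 z).hasDerivWithinAt) (fun z _ => b3 z) (mem_univ _) (mem_univ _)
        exact h5
      refine h4.trans ?_
      refine mul_le_mul h3 ?_ (abs_nonneg _) hR'0
      rcases (abs_nonneg (x - y)).eq_or_lt with h0 | h0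
      · rw [← h0, Real.zero_rpow hs.ne']
      · calc |x - y| = |x - y| ^ (1 : ℝ) := (Real.rpow_one _).symm
          _ ≤ |x - y| ^ s := Real.rpow_le_rpow_of_exponent_ge h0 hc hs1.le
    · have h4 : |fs (dp (dq p)) (dq (dp q)) x - fs (dp (dq p)) (dq (dp q)) y| ≤ R' := by
        refine (abs_sub _ _).trans ?_
        linarith [b2 x, b2 y]
      refine h4.trans (le_mul_of_one_le_right hR'0 (Real.one_le_rpow hc.le hs.le))

/-! ### Entropy -/

/-- rounding towards zero -/
theorem round_exists (x : ℝ) {η : ℝ} (hη : 0 < η) : ∃ a : ℤ, |η * a| ≤ |x| ∧ |x - η * a| ≤ η := by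
  rcases le_or_gt 0 x with h | h
  · refine ⟨⌊x / η⌋, ?_, ?_⟩
    · have h0 : (0 : ℝ) ≤ ⌊x / η⌋ := by exact_mod_cast Int.floor_nonneg.2 (by positivity)
      rw [abs_of_nonneg (by positivity), abs_of_nonneg h]
      have h1 := Int.floor_le (x / η)
      rw [le_div_iff₀ hη] at h1
      linarith
    · have h1 := Int.floor_le (x / η)
      have h2 := Int.lt_floor_add_one (x / η)
      rw [le_div_iff₀ hη] at h1
      rw [div_lt_iff₀ hη] at h2
      rw [abs_le]
      constructor <;> linarith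
  · obtain ⟨y, hy⟩ : ∃ y, y = -x := ⟨_, rfl⟩
    have hy0 : 0 < y := by linarith
    refine ⟨-⌊y / η⌋, ?_, ?_⟩
    · have h0 : (0 : ℝ) ≤ ⌊y / η⌋ := by exact_mod_cast Int.floor_nonneg.2 (by positivity)
      push_cast
      rw [mul_neg, abs_neg, abs_of_nonneg (by positivity), abs_of_neg h, ← hy]
      have h1 := Int.floor_le (y / η)
      rw [le_div_iff₀ hη] at h1
      linarith
    · have h1 := Int.floor_le (y / η)
      have h2 := Int.lt_floor_add_one (y / η)
      rw [le_div_iff₀ hη] at h1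
      rw [div_lt_iff₀ hη] at h2
      push_cast
      rw [abs_le]
      constructor <;> linarith

/-- coefficients of a grid -/
noncomputable def cf {J : ℕ} (η : ℝ) (u : Fin J → ℤ) (j : ℕ) : ℝ := if h : j < J then η * u ⟨j, h⟩ else 0

theorem cf_exists {R η : ℝ} (hR : 0 < R) (hη : 0 < η) (J : ℕ) {p : ℕ → ℝ} (hp : ∀ j, |p j| ≤ ww R R 0 j) :
    ∃ u : Fin J → ℤ, (∀ i, u i ∈ Finset.Icc (-(⌊R / η⌋₊ : ℤ)) (⌊R / η⌋₊ : ℤ)) ∧ (∀ j, |cf η u j| ≤ ww R R 0 j) ∧
      ∀ j, |p j - cf η u j| ≤ ww (η * Real.exp (J / (2 * R)) + R * Real.exp (-(J / (2 * R)))) (2 * R) 0 j := by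
  have hx : ∀ i : Fin J, ∃ a : ℤ, |η * a| ≤ |p i| ∧ |p i - η * a| ≤ η := fun i => round_exists _ hη
  choose u hu using hx
  have hw : ∀ j, ww R R 0 j = R * Real.exp (-(j / R)) := by
    intro j
    unfold ww
    rw [pow_zero, one_mul]
  refine ⟨u, fun i => ?_, fun j => ?_, fun j => ?_⟩
  · have h1 : |η * (u i : ℝ)| ≤ R := by
      refine (hu i).1.trans ((hp i).trans ?_)
      rw [hw]
      have : Real.exp (-((i : ℕ) / R)) ≤ 1 := Real.exp_le_one_iff.2 (by
        have : (0 : ℝ) ≤ ((i : ℕ) : ℝ) / R := by positivity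
        linarith)
      nlinarith
    rw [abs_mul, abs_of_pos hη] at h1
    have h2 : ((u i).natAbs : ℝ) ≤ R / η := by
      rw [le_div_iff₀ hη, Nat.cast_natAbs, Int.cast_abs]
      linarith
    have h3 : (u i).natAbs ≤ ⌊R / η⌋₊ := Nat.le_floor h2
    rw [Finset.mem_Icc]
    omega
  · unfold cf
    split_ifs with h
    · exact (hu ⟨j, h⟩).1.trans (hp j)
    · rw [abs_zero]
      exact (abs_nonneg _).trans (hp j)
  · have hw2 : ww (η * Real.exp (J / (2 * R)) + R * Real.exp (-(J / (2 * R)))) (2 * R) 0 j =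
        (η * Real.exp (J / (2 * R)) + R * Real.exp (-(J / (2 * R)))) * Real.exp (-(j / (2 * R))) := by
      unfold ww
      rw [pow_zero, one_mul]
    rw [hw2, add_mul]
    have g1 : 0 ≤ η * Real.exp (J / (2 * R)) * Real.exp (-(j / (2 * R))) := by positivity
    have g2 : 0 ≤ R * Real.exp (-(J / (2 * R))) * Real.exp (-(j / (2 * R))) := by positivity
    unfold cf
    split_ifs with h
    · have h1 := (hu ⟨j, h⟩).2
      have h2 : η ≤ η * Real.exp (J / (2 * R)) * Real.exp (-(j / (2 * R))) := by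
        rw [mul_assoc, ← Real.exp_add]
        have h3 : (0 : ℝ) ≤ J / (2 * R) + -(j / (2 * R)) := by
          have h4 : (j : ℝ) / (2 * R) ≤ J / (2 * R) := div_le_div_of_nonneg_right (by exact_mod_cast h.le) (by positivity)
          linarith
        exact le_mul_of_one_le_right hη.le (Real.one_le_exp h3)
      exact h1.trans (by linarith)
    · have h1 := hp j
      rw [hw] at h1
      rw [sub_zero]
      have h2 : R * Real.exp (-(j / R)) ≤ R * Real.exp (-(J / (2 * R))) * Real.exp (-(j / (2 * R))) := by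
        rw [mul_assoc, ← Real.exp_add]
        refine mul_le_mul_of_nonneg_left (Real.exp_le_exp.2 ?_) hR.le
        have h3 : (J : ℝ) / (2 * R) ≤ j / (2 * R) := div_le_div_of_nonneg_right (by exact_mod_cast not_lt.1 h) (by positivity)
        have h4 : (j : ℝ) / R = j / (2 * R) + j / (2 * R) := by
          field_simp
          ring
        rw [h4]
        linarith
      exact h1.trans (by linarith)

theorem ww_tsum (E b : ℝ) (k : ℕ) : ∑' j, ww E b k j = E * ∑' j, ww 1 b k j := by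
  rw [← tsum_mul_left]
  refine tsum_congr fun j => ?_
  unfold ww
  ring

theorem fs_ent {R : ℝ} (hR : 1 ≤ R) : ∃ R' : ℝ, Ent R' 2 {G | Ana R G} ∧ ∀ R'', R' ≤ R'' → Ent R'' 2 {G | Ana R G} := by
  classical
  have hR0 : 0 < R := by linarith
  have h2R : 0 < 2 * R := by linarith
  obtain ⟨K, hK⟩ : ∃ K : ℝ, K = 2 * (∑' j, ww 1 (2 * R) 1 j + ∑' j, ww 1 (2 * R) 2 j) := ⟨_, rfl⟩
  have hw0 : ∀ k j, 0 ≤ ww 1 (2 * R) k j := by
    intro k j
    unfold ww
    positivity
  have hK1 : 0 ≤ ∑' j, ww 1 (2 * R) 1 j := tsum_nonneg (hw0 1)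
  have hK2 : 0 ≤ ∑' j, ww 1 (2 * R) 2 j := tsum_nonneg (hw0 2)
  have hK0 : 0 ≤ K := by
    rw [hK]
    positivity
  obtain ⟨A, hA⟩ : ∃ A : ℕ, 2 * R * (1 + 2 * (R * K)) ≤ A := ⟨_, Nat.le_ceil _⟩
  obtain ⟨α, hα⟩ : ∃ α : ℝ, α = A / (2 * R) := ⟨_, rfl⟩
  have hα1 : 1 + 2 * (R * K) ≤ α := by
    rw [hα, le_div_iff₀ h2R]
    linarith
  obtain ⟨D, hD⟩ : ∃ D : ℝ, D = α + 1 + 2 * K := ⟨_, rfl⟩
  have hRK : 0 ≤ R * K := by positivity
  have hD0 : 0 ≤ D := by linarith
  have key : ∀ R'', 2 * A * (3 * R + D) ≤ R'' → Ent R'' 2 {G | Ana R G} := by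
    intro R'' hR'' n hn
    have hnr : (1 : ℝ) ≤ n := by exact_mod_cast hn
    have hn0 : (0 : ℝ) < n := by linarith
    obtain ⟨η, hη⟩ : ∃ η : ℝ, η = Real.exp (-(D * n)) := ⟨_, rfl⟩
    have hη0 : 0 < η := by
      rw [hη]
      exact Real.exp_pos _
    obtain ⟨J, hJ⟩ : ∃ J : ℕ, J = A * n := ⟨_, rfl⟩
    obtain ⟨E, hE⟩ : ∃ E : ℝ, E = η * Real.exp (J / (2 * R)) + R * Real.exp (-(J / (2 * R))) := ⟨_, rfl⟩
    have hJR : (J : ℝ) / (2 * R) = α * n := by
      rw [hJ, hα]
      push_cast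
      ring
    have hE0 : 0 ≤ E := by
      rw [hE]
      positivity
    have hEK : E * K ≤ Real.exp (-n) := by
      rw [hE, hJR, hη, ← Real.exp_add, add_mul]
      have a1 : Real.exp (-(D * n) + α * n) * K ≤ Real.exp (-n) / 2 := by
        have e1 : -(D * n) + α * n = -(n : ℝ) + -(2 * K * n) := by
          rw [hD]
          ring
        rw [e1, Real.exp_add]
        have a2 : 2 * K ≤ Real.exp (2 * K * n) := by
          have := Real.add_one_le_exp (2 * K * n)
          nlinarith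
        have a3 : Real.exp (-(2 * K * n)) * K ≤ 1 / 2 := by
          rw [Real.exp_neg, inv_mul_le_iff₀ (Real.exp_pos _)]
          linarith
        have a4 := mul_le_mul_of_nonneg_left a3 (Real.exp_pos (-(n : ℝ))).le
        linarith
      have b1 : R * Real.exp (-(α * n)) * K ≤ Real.exp (-n) / 2 := by
        have e1 : Real.exp (-(α * n)) ≤ Real.exp (-(n : ℝ)) * Real.exp (-(2 * (R * K) * n)) := by
          rw [← Real.exp_add]
          refine Real.exp_le_exp.2 ?_
          nlinarith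
        have b2 : 2 * (R * K) ≤ Real.exp (2 * (R * K) * n) := by
          have := Real.add_one_le_exp (2 * (R * K) * n)
          nlinarith
        have b3 : Real.exp (-(2 * (R * K) * n)) * (R * K) ≤ 1 / 2 := by
          rw [Real.exp_neg, inv_mul_le_iff₀ (Real.exp_pos _)]
          linarith
        calc R * Real.exp (-(α * n)) * K = Real.exp (-(α * n)) * (R * K) := by ring
          _ ≤ Real.exp (-(n : ℝ)) * Real.exp (-(2 * (R * K) * n)) * (R * K) := mul_le_mul_of_nonneg_right e1 hRK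
          _ = Real.exp (-(n : ℝ)) * (Real.exp (-(2 * (R * K) * n)) * (R * K)) := by ring
          _ ≤ Real.exp (-(n : ℝ)) * (1 / 2) := mul_le_mul_of_nonneg_left b3 (Real.exp_pos _).le
          _ = Real.exp (-n) / 2 := by ring
      linarith
    -- the net
    obtain ⟨m, hm⟩ : ∃ m : ℕ, m = ⌊R / η⌋₊ := ⟨_, rfl⟩
    obtain ⟨U, hU⟩ : ∃ U : Finset (Fin J → ℤ), U = Fintype.piFinset (fun _ : Fin J => Finset.Icc (-(m : ℤ)) (m : ℤ)) := ⟨_, rfl⟩
    have hUc : U.card = (2 * m + 1) ^ J := by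
      rw [hU, Fintype.card_piFinset_const, Int.card_Icc]
      congr 1
      omega
    obtain ⟨S, hS⟩ : ∃ S : Finset (ℝ → ℝ), S = ((U ×ˢ U).image (fun w => fs (cf η w.1) (cf η w.2))).filter (fun F => Ana R F) := ⟨_, rfl⟩
    refine ⟨S, ?_, ?_, ?_⟩
    · intro F hF
      rw [hS] at hF
      exact (Finset.mem_filter.1 (Finset.mem_coe.1 hF)).2
    · have c1 : S.card ≤ ((2 * m + 1) ^ J) * ((2 * m + 1) ^ J) := by
        rw [hS]
        refine (Finset.card_filter_le _ _).trans (Finset.card_image_le.trans ?_)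
        rw [Finset.card_product, hUc]
      have c2 : ((2 * m + 1 : ℕ) : ℝ) ≤ Real.exp (3 * R + D * n) := by
        have h1 : (m : ℝ) ≤ R / η := by
          rw [hm]
          exact Nat.floor_le (by positivity)
        have h2 : R / η = R * Real.exp (D * n) := by
          rw [hη, Real.exp_neg, div_inv_eq_mul]
        have h3 : 1 ≤ Real.exp (D * n) := Real.one_le_exp (by positivity)
        have h4 : 3 * R ≤ Real.exp (3 * R) := by
          have := Real.add_one_le_exp (3 * R)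
          linarith
        rw [h2] at h1
        push_cast
        rw [Real.exp_add]
        have h5 : 2 * (m : ℝ) + 1 ≤ 3 * R * Real.exp (D * n) := by nlinarith
        exact h5.trans (mul_le_mul_of_nonneg_right h4 (by positivity))
      have c3 : (S.card : ℝ) ≤ Real.exp (3 * R + D * n) ^ (2 * J) := by
        have h1 : (S.card : ℝ) ≤ (((2 * m + 1) ^ J * (2 * m + 1) ^ J : ℕ) : ℝ) := by exact_mod_cast c1
        have h2 : (((2 * m + 1) ^ J * (2 * m + 1) ^ J : ℕ) : ℝ) = ((2 * m + 1 : ℕ) : ℝ) ^ (2 * J) := by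
          push_cast
          ring
        rw [h2] at h1
        exact h1.trans (pow_le_pow_left₀ (Nat.cast_nonneg _) c2 _)
      refine c3.trans ?_
      rw [← Real.exp_nat_mul]
      refine Real.exp_le_exp.2 ?_
      rw [hJ]
      push_cast
      have h1 : 3 * R + D * n ≤ (3 * R + D) * n := by nlinarith
      have hA0 : (0 : ℝ) ≤ A := Nat.cast_nonneg _
      calc 2 * ((A : ℝ) * n) * (3 * R + D * n) ≤ 2 * ((A : ℝ) * n) * ((3 * R + D) * n) :=
            mul_le_mul_of_nonneg_left h1 (by positivity)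
        _ = 2 * A * (3 * R + D) * (n : ℝ) ^ 2 := by ring
        _ ≤ R'' * (n : ℝ) ^ 2 := mul_le_mul_of_nonneg_right hR'' (by positivity)
    · rintro G ⟨p, q, hp, hq, hG⟩
      have hw : ∀ j, ww R R 0 j = R * Real.exp (-(j / R)) := by
        intro j
        unfold ww
        rw [pow_zero, one_mul]
      have hp' : ∀ j, |p j| ≤ ww R R 0 j := fun j => by rw [hw]; exact hp j
      have hq' : ∀ j, |q j| ≤ ww R R 0 j := fun j => by rw [hw]; exact hq j
      have hGf : G = fs p q := funext hG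
      obtain ⟨u, hu1, hu2, hu3⟩ := cf_exists hR0 hη0 J hp'
      obtain ⟨v, hv1, hv2, hv3⟩ := cf_exists hR0 hη0 J hq'
      rw [← hE] at hu3 hv3
      refine ⟨fs (cf η u) (cf η v), ?_, ?_⟩
      · rw [hS, Finset.mem_filter]
        refine ⟨Finset.mem_image.2 ⟨(u, v), ?_, rfl⟩, cf η u, cf η v, fun j => ?_, fun j => ?_, fun x => rfl⟩
        · rw [Finset.mem_product, hU]
          exact ⟨Fintype.mem_piFinset.2 (fun i => by rw [hm]; exact hu1 i), Fintype.mem_piFinset.2 (fun i => by rw [hm]; exact hv1 i)⟩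
        · rw [← hw]
          exact hu2 j
        · rw [← hw]
          exact hv2 j
      · -- the differences
        have hd : ∀ x, fs p q x - fs (cf η u) (cf η v) x = fs (fun j => p j - cf η u j) (fun j => q j - cf η v j) x :=
          fs_sub hp' hq' hu2 hv2 (ww_summable R hR0 0)
        have e1 := fs_deriv_ww hR0 hp' hq'
        have e2 := fs_deriv_ww hR0 (dp_ww hq') (dq_ww hp')
        have e3 := fs_deriv_ww hR0 hu2 hv2
        have e4 := fs_deriv_ww hR0 (dp_ww hv2) (dq_ww hu2)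
        have d1 : ∀ x, fs (dp q) (dq p) x - fs (dp (cf η v)) (dq (cf η u)) x =
            fs (dp (fun j => q j - cf η v j)) (dq (fun j => p j - cf η u j)) x := by
          intro x
          rw [fs_sub (dp_ww hq') (dq_ww hp') (dp_ww hv2) (dq_ww hu2) (ww_summable R hR0 1)]
          unfold dp dq
          congr 1 <;>
          · ext j
            ring
        have d2 : ∀ x, fs (dp (dq p)) (dq (dp q)) x - fs (dp (dq (cf η u))) (dq (dp (cf η v))) x =
            fs (dp (dq (fun j => p j - cf η u j))) (dq (dp (fun j => q j - cf η v j))) x := by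
          intro x
          rw [fs_sub (dp_ww (dq_ww hp')) (dq_ww (dp_ww hq')) (dp_ww (dq_ww hu2)) (dq_ww (dp_ww hv2)) (ww_summable R hR0 2)]
          unfold dp dq
          congr 1 <;>
          · ext j
            ring
        intro x
        rw [hGf, e1, e3, e2, e4, d1 x, d2 x]
        have g1 := fs_bound (dp_ww hv3) (dq_ww hu3) (ww_summable E h2R 1) x
        have g2 := fs_bound (dp_ww (dq_ww hu3)) (dq_ww (dp_ww hv3)) (ww_summable E h2R 2) x
        rw [ww_tsum] at g1 g2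
        have g3 : 2 * (E * ∑' j, ww 1 (2 * R) (0 + 1) j) ≤ E * K := by
          rw [hK]
          have := mul_nonneg hE0 hK2
          simp only [Nat.zero_add]
          linarith
        have g4 : 2 * (E * ∑' j, ww 1 (2 * R) (0 + 1 + 1) j) ≤ E * K := by
          rw [hK]
          have := mul_nonneg hE0 hK1
          simp only [Nat.zero_add]
          linarith
        exact ⟨(g1.trans g3).trans hEK, (g2.trans g4).trans hEK⟩
  exact ⟨2 * A * (3 * R + D), key _ le_rfl, key⟩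

theorem ana_pot {s : ℝ} (hs : 0 < s) (hs1 : s < 1) {R : ℝ} (hR : 1 ≤ R) : ∃ R' : ℝ, 1 ≤ R' ∧
    (∀ G, Ana R G → Pot s R' G) ∧ Ent R' 2 {G | Ana R G} := by
  obtain ⟨R₀, -, hent⟩ := fs_ent hR
  have hR0 : 0 < R := by linarith
  have hw0 : ∀ k j, 0 ≤ ww R R k j := by
    intro k j
    unfold ww
    positivity
  have h1 : 0 ≤ ∑' j, ww R R 1 j := tsum_nonneg (hw0 1)
  have h2 : 0 ≤ ∑' j, ww R R 2 j := tsum_nonneg (hw0 2)
  have h3 : 0 ≤ ∑' j, ww R R 3 j := tsum_nonneg (hw0 3)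
  refine ⟨|R₀| + 1 + 2 * ∑' j, ww R R 1 j + 2 * (2 * ∑' j, ww R R 2 j) + 2 * ∑' j, ww R R 3 j, ?_, ?_, ?_⟩
  · linarith [abs_nonneg R₀]
  · rintro G ⟨p, q, hp, hq, hG⟩
    have hw : ∀ j, ww R R 0 j = R * Real.exp (-(j / R)) := by
      intro j
      unfold ww
      rw [pow_zero, one_mul]
    have hGf : G = fs p q := funext hG
    rw [hGf]
    exact fs_pot hs hs1 hR (by linarith [abs_nonneg R₀]) (by linarith [abs_nonneg R₀]) (by linarith [abs_nonneg R₀])
      (fun j => by rw [hw]; exact hp j) (fun j => by rw [hw]; exact hq j)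
  · exact hent _ (by linarith [le_abs_self R₀])

end Pool.Agent.Helper68.AP
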